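import Mathlib

/-!
# MP_b44c8b_co: every `[n]` has a 3-good partition.
-/

namespace Pool.Agent.Results.MP_b44c8b_co.ThreeGood

open Finset

/-- `Part p S`: the finite set `S` is a disjoint union of finitely many sets with property `p`. -/
inductive Part {α : Type} [DecidableEq α] (p : Finset α → Prop) : Finset α → Prop
  | empty : Part p ∅
  | cons (A S : Finset α) : p A → Part p S → (∀ x ∈ A, x ∉ S) → Part p (A ∪ S)

section general

variable {α : Type} [DecidableEq α] {p : Finset α → Prop}

theorem Part.union {S T : Finset α} (hS : Part p S) (hT : Part p T)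
    (hd : ∀ x ∈ S, x ∉ T) : Part p (S ∪ T) := by
  induction hS with
  | empty => simpa using hT
  | cons A S hA _ hAS ih =>
    rw [Finset.union_assoc]
    refine Part.cons A _ hA (ih fun x hx => hd x (by simp [hx])) ?_
    intro x hx hx'
    rcases Finset.mem_union.1 hx' with h | h
    · exact hAS x hx h
    · exact hd x (by simp [hx]) h

theorem Part.single {A : Finset α} (hA : p A) : Part p A := by
  have := Part.cons A ∅ hA Part.empty (by simp)
  simpa using this

theorem Part.family {ι : Type} [DecidableEq ι] (I : Finset ι) (A : ι → Finset α)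
    (hA : ∀ i ∈ I, p (A i))
    (hd : ∀ i ∈ I, ∀ j ∈ I, ∀ x ∈ A i, x ∈ A j → i = j) : Part p (I.biUnion A) := by
  induction I using Finset.induction_on with
  | empty => simpa using Part.empty
  | insert a I ha ih =>
    rw [Finset.biUnion_insert]
    refine Part.cons _ _ (hA a (by simp)) (ih (fun i hi => hA i (by simp [hi]))
      fun i hi j hj => hd i (by simp [hi]) j (by simp [hj])) ?_
    intro x hx hx'
    obtain ⟨i, hi, hxi⟩ := Finset.mem_biUnion.1 hx'
    have := hd a (by simp) i (by simp [hi]) x hx hxi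
    subst this
    exact ha hi

theorem Part.map {β : Type} [DecidableEq β] {q : Finset β → Prop} (f : α → β)
    {S : Finset α} (hS : Part p S) (hf : Set.InjOn f (S : Set α))
    (hpq : ∀ A ⊆ S, p A → q (A.image f)) : Part q (S.image f) := by
  induction hS with
  | empty => simpa using Part.empty
  | cons A S hA _ hAS ih =>
    rw [Finset.image_union]
    refine Part.cons _ _ (hpq A Finset.subset_union_left hA)
      (ih (hf.mono (by simp)) fun B hB => hpq B (hB.trans Finset.subset_union_right)) ?_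
    intro y hy hy'
    obtain ⟨a, ha, rfl⟩ := Finset.mem_image.1 hy
    obtain ⟨b, hb, hab⟩ := Finset.mem_image.1 hy'
    have := hf (by simp [hb]) (by simp [ha]) hab
    subst this
    exact hAS _ ha hb

end general

/-- three distinct integers with sum zero -/
def Z3 (A : Finset ℤ) : Prop := A.card = 3 ∧ ∑ a ∈ A, a = 0

/-- a nonempty set of at most three integers whose sum is a power of 3 -/
def G3 (A : Finset ℤ) : Prop := A.Nonempty ∧ A.card ≤ 3 ∧ ∃ j : ℕ, ∑ a ∈ A, a = 3 ^ j

theorem z3_triple {a b c : ℤ} (hab : a ≠ b) (hac : a ≠ c) (hbc : b ≠ c) (h : a + b + c = 0) :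
    Z3 {a, b, c} := by
  refine ⟨Finset.card_eq_three.2 ⟨a, b, c, hab, hac, hbc, rfl⟩, ?_⟩
  rw [Finset.sum_insert (by simp [hab, hac]), Finset.sum_insert (by simp [hbc]),
    Finset.sum_singleton]
  omega

theorem g3_pair {a b : ℤ} (j : ℕ) (hab : a ≠ b) (h : a + b = 3 ^ j) : G3 {a, b} := by
  refine ⟨by simp, (Finset.card_le_two).trans (by norm_num), j, ?_⟩
  rw [Finset.sum_insert (by simp [hab]), Finset.sum_singleton]
  exact h

theorem g3_triple {a b c : ℤ} (j : ℕ) (hab : a ≠ b) (hac : a ≠ c) (hbc : b ≠ c)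
    (h : a + b + c = 3 ^ j) : G3 {a, b, c} := by
  refine ⟨by simp, Finset.card_le_three, j, ?_⟩
  rw [Finset.sum_insert (by simp [hab, hac]), Finset.sum_insert (by simp [hbc]),
    Finset.sum_singleton]
  omega

theorem g3_single (j : ℕ) : G3 {(3 : ℤ) ^ j} := ⟨by simp, by simp, j, by simp⟩

/-- translation by a power of three of a set split in zero-sum triples -/
theorem shift {S : Finset ℤ} (t : ℕ) (hS : Part Z3 S) :
    Part G3 (S.image fun z => 3 ^ t + z) := by
  refine hS.map _ (fun a _ b _ h => by simpa using h) ?_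
  rintro A - ⟨h1, h2⟩
  refine ⟨?_, (Finset.card_image_le).trans h1.le, t + 1, ?_⟩
  · rw [Finset.image_nonempty, ← Finset.card_pos]; omega
  · rw [Finset.sum_image (fun a _ b _ h => by simpa using h), Finset.sum_add_distrib, h2,
      Finset.sum_const, h1]
    simp [pow_succ]; ring

/-- `±[r]` for `3 ∣ r` -/
theorem sym0 (j : ℤ) (hj : 0 ≤ j) :
    Part Z3 (Finset.Icc (-(3 * j)) (-1) ∪ Finset.Icc 1 (3 * j)) := by
  have h1 : Part Z3 ((Finset.Icc 1 j).biUnion fun i => {i, j + i, -(j + 2 * i)}) := by
    refine Part.family _ _ (fun i hi => ?_) ?_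
    · rw [Finset.mem_Icc] at hi
      exact z3_triple (by omega) (by omega) (by omega) (by omega)
    · intro i hi k hk x hx hx'
      rw [Finset.mem_Icc] at hi hk
      simp only [Finset.mem_insert, Finset.mem_singleton] at hx hx'
      omega
  have h2 : Part Z3 ((Finset.Icc 1 j).biUnion fun i =>
      {2 * j + i, -(j + 2 * i - 1), -(j + 1 - i)}) := by
    refine Part.family _ _ (fun i hi => ?_) ?_
    · rw [Finset.mem_Icc] at hi
      exact z3_triple (by omega) (by omega) (by omega) (by omega)
    · intro i hi k hk x hx hx'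
      rw [Finset.mem_Icc] at hi hk
      simp only [Finset.mem_insert, Finset.mem_singleton] at hx hx'
      omega
  have h3 := h1.union h2 (by
    intro x hx hx'
    simp only [Finset.mem_biUnion, Finset.mem_insert, Finset.mem_singleton,
      Finset.mem_Icc] at hx hx'
    obtain ⟨i, hi, hx⟩ := hx
    obtain ⟨k, hk, hx'⟩ := hx'
    omega)
  convert h3 using 1
  ext x
  simp only [Finset.mem_union, Finset.mem_biUnion, Finset.mem_insert, Finset.mem_singleton,
    Finset.mem_Icc]
  constructor
  · intro h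
    by_cases c1 : 1 ≤ x ∧ x ≤ j
    · exact Or.inl ⟨x, by omega, by omega⟩
    by_cases c2 : j + 1 ≤ x ∧ x ≤ 2 * j
    · exact Or.inl ⟨x - j, by omega, by omega⟩
    by_cases c3 : 2 * j + 1 ≤ x
    · exact Or.inr ⟨x - 2 * j, by omega, by omega⟩
    by_cases c4 : -j ≤ x
    · exact Or.inr ⟨j + 1 + x, by omega, by omega⟩
    by_cases c5 : (-x - j) % 2 = 0
    · exact Or.inl ⟨(-x - j) / 2, by omega, by omega⟩
    · exact Or.inr ⟨(-x - j + 1) / 2, by omega, by omega⟩
  · rintro (⟨i, hi, h⟩ | ⟨i, hi, h⟩) <;> omega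

/-- three intervals of odd length `2j+1` -/
theorem three (j x y : ℤ) (hj : 0 ≤ j) (h12 : y ≤ x + 1 ∨ x + 2 * j + 1 < y - 2 * j - 1)
    (h13 : ∀ i, x + 1 ≤ i → i ≤ x + 2 * j + 1 → ¬ (-(x + y + j) ≤ i ∧ i ≤ -(x + y - j)))
    (h23 : ∀ i, y - 2 * j - 1 ≤ i → i ≤ y - 1 → ¬ (-(x + y + j) ≤ i ∧ i ≤ -(x + y - j))) :
    Part Z3 (Finset.Icc (x + 1) (x + 2 * j + 1) ∪ Finset.Icc (y - 2 * j - 1) (y - 1) ∪
      Finset.Icc (-(x + y + j)) (-(x + y - j))) := by
  have h1 : Part Z3 ((Finset.Icc 1 j).biUnion fun i => {x + i, y - 2 * i, -(x + y - i)}) := by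
    refine Part.family _ _ (fun i hi => ?_) ?_
    · rw [Finset.mem_Icc] at hi
      have e1 := h13 (x + i) (by omega) (by omega)
      have e2 := h23 (y - 2 * i) (by omega) (by omega)
      exact z3_triple (by omega) (by omega) (by omega) (by omega)
    · intro i hi k hk z hx hx'
      rw [Finset.mem_Icc] at hi hk
      simp only [Finset.mem_insert, Finset.mem_singleton] at hx hx'
      have e1 := h13 z
      have e2 := h23 z
      omega
  have h2 : Part Z3 ((Finset.Icc 1 (j + 1)).biUnion fun i =>
      {x + j + i, y - 2 * i + 1, -(x + y + j - i + 1)}) := by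
    refine Part.family _ _ (fun i hi => ?_) ?_
    · rw [Finset.mem_Icc] at hi
      have e1 := h13 (x + j + i) (by omega) (by omega)
      have e2 := h23 (y - 2 * i + 1) (by omega) (by omega)
      exact z3_triple (by omega) (by omega) (by omega) (by omega)
    · intro i hi k hk z hx hx'
      rw [Finset.mem_Icc] at hi hk
      simp only [Finset.mem_insert, Finset.mem_singleton] at hx hx'
      have e1 := h13 z
      have e2 := h23 z
      omega
  have h3 := h1.union h2 (by
    intro z hx hx'
    simp only [Finset.mem_biUnion, Finset.mem_insert, Finset.mem_singleton,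
      Finset.mem_Icc] at hx hx'
    obtain ⟨i, hi, hx⟩ := hx
    obtain ⟨k, hk, hx'⟩ := hx'
    have e1 := h13 z
    have e2 := h23 z
    omega)
  convert h3 using 1
  ext z
  simp only [Finset.mem_union, Finset.mem_biUnion, Finset.mem_insert, Finset.mem_singleton,
    Finset.mem_Icc]
  constructor
  · rintro ((h | h) | h)
    · by_cases c : z ≤ x + j
      · exact Or.inl ⟨z - x, by omega, by omega⟩
      · exact Or.inr ⟨z - x - j, by omega, by omega⟩
    · by_cases c : (y - z) % 2 = 0
      · exact Or.inl ⟨(y - z) / 2, by omega, by omega⟩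
      · exact Or.inr ⟨(y - z + 1) / 2, by omega, by omega⟩
    · by_cases c : -(x + y) < z
      · exact Or.inl ⟨x + y + z, by omega, by omega⟩
      · exact Or.inr ⟨x + y + j + 1 + z, by omega, by omega⟩
  · rintro (⟨i, hi, h⟩ | ⟨i, hi, h⟩) <;> omega

/-- pairs with sum a power of three -/
theorem pairs (t : ℕ) (R : Finset ℤ) (hR : ∀ x ∈ R, 3 ^ t - x ∈ R) : Part G3 R := by
  have hodd : ((3 : ℤ) ^ t) % 2 = 1 := by
    have : Odd ((3 : ℤ) ^ t) := Odd.pow (by decide)
    exact Int.odd_iff.1 this
  have h1 : Part G3 ((R.filter fun x => 2 * x < 3 ^ t).biUnion fun x => {x, 3 ^ t - x}) := by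
    refine Part.family _ _ (fun i hi => ?_) ?_
    · rw [Finset.mem_filter] at hi
      exact g3_pair t (by omega) (by omega)
    · intro i hi k hk z hx hx'
      rw [Finset.mem_filter] at hi hk
      simp only [Finset.mem_insert, Finset.mem_singleton] at hx hx'
      omega
  convert h1 using 1
  ext z
  simp only [Finset.mem_biUnion, Finset.mem_insert, Finset.mem_singleton, Finset.mem_filter]
  constructor
  · intro h
    by_cases c : 2 * z < 3 ^ t
    · exact ⟨z, ⟨h, c⟩, Or.inl rfl⟩
    · exact ⟨3 ^ t - z, ⟨hR z h, by omega⟩, Or.inr (by omega)⟩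
  · rintro ⟨x, ⟨hx, _⟩, rfl | rfl⟩
    · exact hx
    · exact hR _ hx

/-- the step lemma -/
theorem step (t : ℕ) (m : ℤ) (hm : 0 ≤ m) (U : Finset ℤ)
    (hU : ∀ u ∈ U, 0 ≤ u ∧ u < 3 ^ t)
    (hZ : Part Z3 (Finset.Icc 1 m ∪ U.image fun u => -u))
    (hG : Part G3 (U.filter fun x => 1 ≤ x ∧ 3 ^ t - x ∉ U)) :
    Part G3 (Finset.Icc 1 (3 ^ t + m)) := by
  have hQ : (1 : ℤ) ≤ 3 ^ t := one_le_pow₀ (by norm_num)
  have h1 := shift t hZ
  have hmem1 : ∀ x : ℤ, (x ∈ (Finset.Icc 1 m ∪ U.image fun u => -u).image fun z => 3 ^ t + z) ↔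
      ((1 ≤ x - 3 ^ t ∧ x - 3 ^ t ≤ m) ∨ 3 ^ t - x ∈ U) := by
    intro x
    simp only [Finset.mem_image, Finset.mem_union, Finset.mem_Icc]
    constructor
    · rintro ⟨z, h | ⟨u, hu, rfl⟩, rfl⟩
      · left; omega
      · right; convert hu using 1; ring
    · rintro (h | h)
      · exact ⟨x - 3 ^ t, Or.inl (by omega), by omega⟩
      · exact ⟨x - 3 ^ t, Or.inr ⟨_, h, by omega⟩, by omega⟩
  set S1 := (Finset.Icc 1 m ∪ U.image fun u => -u).image fun z => 3 ^ t + z with hS1
  set R := (Finset.Icc 1 ((3 : ℤ) ^ t - 1)).filter (fun x => x ∉ U ∧ 3 ^ t - x ∉ U) with hR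
  have hRG : Part G3 R := by
    refine pairs t R ?_
    intro x hx
    rw [hR, Finset.mem_filter, Finset.mem_Icc] at hx ⊢
    refine ⟨by omega, hx.2.2, ?_⟩
    rw [sub_sub_cancel]
    exact hx.2.1
  set T := U.filter (fun x => 1 ≤ x ∧ 3 ^ t - x ∉ U) with hT
  have h2 : Part G3 (R ∪ T) := hRG.union hG (by
    intro x hx hx'
    rw [hR, Finset.mem_filter] at hx
    rw [hT, Finset.mem_filter] at hx'
    exact hx.2.1 hx'.1)
  have h3 : Part G3 (S1 ∪ (R ∪ T)) := h1.union h2 (by
    intro x hx hx'
    rw [hmem1] at hx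
    rw [Finset.mem_union, hR, hT, Finset.mem_filter, Finset.mem_filter, Finset.mem_Icc] at hx'
    rcases hx with hx | hx
    · rcases hx' with hx' | hx'
      · omega
      · have := hU x hx'.1
        omega
    · rcases hx' with hx' | hx'
      · exact hx'.2.2 hx
      · exact hx'.2.2 hx)
  by_cases h0 : (0 : ℤ) ∈ U
  · convert h3 using 1
    ext x
    rw [Finset.mem_union, Finset.mem_union, hmem1, hR, hT, Finset.mem_filter, Finset.mem_filter,
      Finset.mem_Icc, Finset.mem_Icc]
    constructor
    · intro h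
      by_cases c1 : 3 ^ t < x
      · left; left; omega
      by_cases c2 : x = 3 ^ t
      · left; right; rw [c2, sub_self]; exact h0
      by_cases c3 : 3 ^ t - x ∈ U
      · left; right; exact c3
      by_cases c4 : x ∈ U
      · right; right; exact ⟨c4, h.1, c3⟩
      · right; left; exact ⟨by omega, c4, c3⟩
    · rintro ((h | h) | h | h)
      · omega
      · have := hU _ h; omega
      · omega
      · have := hU _ h.1; omega
  · have h4 : Part G3 ({(3 : ℤ) ^ t} ∪ (S1 ∪ (R ∪ T))) := by
      refine Part.cons _ _ (g3_single t) h3 ?_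
      intro x hx hx'
      rw [Finset.mem_singleton] at hx
      subst hx
      rw [Finset.mem_union, Finset.mem_union, hmem1, hR, hT, Finset.mem_filter,
        Finset.mem_filter, Finset.mem_Icc] at hx'
      rcases hx' with (h | h) | h | h
      · omega
      · rw [sub_self] at h; exact h0 h
      · omega
      · have := hU _ h.1; omega
    convert h4 using 1
    ext x
    rw [Finset.mem_union, Finset.mem_union, Finset.mem_union, hmem1, hR, hT, Finset.mem_filter,
      Finset.mem_filter, Finset.mem_Icc, Finset.mem_Icc, Finset.mem_singleton]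
    constructor
    · intro h
      by_cases c1 : 3 ^ t < x
      · right; left; left; omega
      by_cases c2 : x = 3 ^ t
      · left; exact c2
      by_cases c3 : 3 ^ t - x ∈ U
      · right; left; right; exact c3
      by_cases c4 : x ∈ U
      · right; right; right; exact ⟨c4, h.1, c3⟩
      · right; right; left; exact ⟨by omega, c4, c3⟩
    · rintro (h | (h | h) | h | h)
      · omega
      · omega
      · have := hU _ h; omega
      · omega
      · have := hU _ h.1; omega

/-- the exchanged set `[r] ∪ (2r + W)` -/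
noncomputable def Uset (r : ℤ) (W : Finset ℤ) : Finset ℤ := Finset.Icc 1 r ∪ W.image fun w => 2 * r + w

theorem mem_Uset {r : ℤ} {W : Finset ℤ} {x : ℤ} :
    x ∈ Uset r W ↔ (1 ≤ x ∧ x ≤ r) ∨ x - 2 * r ∈ W := by
  unfold Uset
  rw [Finset.mem_union, Finset.mem_Icc, Finset.mem_image]
  constructor
  · rintro (h | ⟨w, hw, rfl⟩)
    · exact Or.inl h
    · right; rw [add_sub_cancel_left]; exact hw
  · rintro (h | h)
    · exact Or.inl h
    · exact Or.inr ⟨_, h, by ring⟩

/-- the induction data -/
structure Key (t : ℕ) (r g : ℤ) (W : Finset ℤ) : Prop where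
  hr : 0 ≤ r
  h3 : r % 3 = 0
  hg : 1 ≤ g
  hQ : 2 * (r + 2 * g) < 3 ^ t
  hW : ∀ w ∈ W, 1 ≤ w ∧ w ≤ 4 * g - 1
  hM : ∀ s : ℤ, 0 ≤ s →
    Part Z3 (Finset.Icc (s + 1) (s + 2 * g) ∪ W.image fun w => -(2 * s + w))
  hG : Part G3 ((Uset r W).filter fun x => 1 ≤ x ∧ 3 ^ t - x ∉ Uset r W)

theorem Key.mem {t : ℕ} {r g : ℤ} {W : Finset ℤ} (K : Key t r g W) {x : ℤ}
    (hx : x ∈ Uset r W) : 1 ≤ x ∧ x < 3 ^ t := by
  have h1 := K.hr
  have h2 := K.hQ
  have h3 := K.hg
  rcases mem_Uset.1 hx with h | h
  · omega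
  · have := K.hW _ h
    omega

/-- `±[r]` as image -/
theorem symr (r : ℤ) (hr : 0 ≤ r) (h3 : r % 3 = 0) :
    Part Z3 (Finset.Icc (-r) (-1) ∪ Finset.Icc 1 r) := by
  have := sym0 (r / 3) (by omega)
  have e : 3 * (r / 3) = r := by omega
  rwa [e] at this

theorem Key.good {t : ℕ} {r g : ℤ} {W : Finset ℤ} (K : Key t r g W) :
    Part G3 (Finset.Icc 1 (3 ^ t + (r + 2 * g))) := by
  have h1 := K.hr
  have h2 := K.hQ
  have h3 := K.hg
  refine step t (r + 2 * g) (by omega) (Uset r W) (fun u hu => ?_) ?_ K.hG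
  · have := K.mem hu; omega
  · have h4 := (symr r h1 K.h3).union (K.hM r h1) (by
      intro x hx hx'
      simp only [Finset.mem_union, Finset.mem_Icc, Finset.mem_image] at hx hx'
      rcases hx' with h | ⟨w, hw, h⟩
      · omega
      · have := K.hW _ hw
        omega)
    convert h4 using 1
    ext x
    simp only [Finset.mem_union, Finset.mem_Icc, Finset.mem_image, mem_Uset]
    constructor
    · rintro (h | ⟨u, h | h, rfl⟩)
      · by_cases c : x ≤ r
        · left; right; omega
        · right; left; omega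
      · left; left; omega
      · right; right; exact ⟨_, h, by ring⟩
    · rintro ((h | h) | h | ⟨w, hw, rfl⟩)
      · right; exact ⟨-x, Or.inl (by omega), by omega⟩
      · left; omega
      · left; omega
      · right; refine ⟨2 * r + w, Or.inr ?_, by ring⟩
        rw [add_sub_cancel_left]; exact hw

theorem pow_gt {s t : ℕ} (h : (3 : ℤ) ^ s < 3 ^ t) : (3 : ℤ) ^ (s + 1) ≤ 3 ^ t := by
  have : s < t := (pow_lt_pow_iff_right₀ (by norm_num)).1 h
  exact pow_le_pow_right₀ (by norm_num) this

/-- first case -/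
theorem lemA (t s : ℕ) (r g : ℤ) (hr : 0 ≤ r) (h3 : r % 3 = 0) (hg : 1 ≤ g)
    (hM : 2 * r + 2 * g + 1 = 3 ^ s) (hG : Part G3 (Finset.Icc 1 r))
    (hQ : 2 * (r + 2 * g) < 3 ^ t) : ∃ W, Key t r g W := by
  have hs : 3 * (3 : ℤ) ^ s ≤ 3 ^ t := by
    have := pow_gt (s := s) (t := t) (by omega)
    rw [pow_succ] at this
    omega
  have hs0 : s ≠ 0 := by
    rintro rfl
    rw [pow_zero] at hM
    omega
  obtain ⟨s', rfl⟩ := Nat.exists_eq_succ_of_ne_zero hs0
  have hMs : (3 : ℤ) ^ (s' + 1) = 3 * 3 ^ s' := by rw [pow_succ]; ring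
  have hg3 : g % 3 = 1 := by
    have := hMs
    rw [Nat.succ_eq_add_one] at hM
    omega
  -- reduce the last condition to goodness of the set of sums
  have key : ∀ W : Finset ℤ, (∀ w ∈ W, 1 ≤ w ∧ w ≤ 4 * g - 1) →
      (∀ w ∈ W, w ≤ 3 * g) →
      (∀ u : ℤ, 0 ≤ u →
        Part Z3 (Finset.Icc (u + 1) (u + 2 * g) ∪ W.image fun w => -(2 * u + w))) →
      Part G3 (W.image fun w => 2 * r + w) → Key t r g W := by
    intro W hW hW' hZ hGW
    refine ⟨hr, h3, hg, hQ, hW, hZ, ?_⟩
    have h5 := hG.union hGW (by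
      intro x hx hx'
      simp only [Finset.mem_Icc, Finset.mem_image] at hx hx'
      obtain ⟨w, hw, h⟩ := hx'
      have := hW w hw
      omega)
    convert h5 using 1
    ext x
    rw [Finset.mem_filter]
    constructor
    · intro h; exact h.1
    · intro h
      refine ⟨h, ?_⟩
      have hb : ∀ y, y ∈ Uset r W → 1 ≤ y ∧ 2 * y < 3 ^ t := by
        intro y hy
        rcases mem_Uset.1 hy with h | h
        · omega
        · have h6 := hW _ h
          have h7 := hW' _ h
          omega
      have h8 := hb x h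
      refine ⟨h8.1, fun h9 => ?_⟩
      have h10 := hb _ h9
      omega
  by_cases hpar : g % 2 = 1
  · obtain ⟨h, rfl⟩ : ∃ h, g = 2 * h + 1 := ⟨g / 2, by omega⟩
    refine ⟨Finset.Icc (2 * (2 * h + 1) + 1 - h) (2 * (2 * h + 1) + 1 + h), key _ ?_ ?_ ?_ ?_⟩
    · intro w hw; rw [Finset.mem_Icc] at hw; omega
    · intro w hw; rw [Finset.mem_Icc] at hw; omega
    · intro u hu
      have h1 := three h (u + (2 * h + 1)) (u + (2 * h + 1) + 1) (by omega) (by omega)
        (by intros; omega) (by intros; omega)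
      convert h1 using 1
      ext x
      simp only [Finset.mem_union, Finset.mem_Icc, Finset.mem_image]
      constructor
      · rintro (h | ⟨w, hw, rfl⟩) <;> omega
      · rintro ((h | h) | h)
        · left; omega
        · left; omega
        · right; exact ⟨-x - 2 * u, by omega, by omega⟩
    · have h1 := shift (s' + 1) (symr h (by omega) (by omega))
      have h2 : Part G3 ({(3 : ℤ) ^ (s' + 1)} ∪
          (Finset.Icc (-h) (-1) ∪ Finset.Icc 1 h).image fun z => 3 ^ (s' + 1) + z) := by
        refine Part.cons _ _ (g3_single _) h1 ?_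
        intro x hx hx'
        simp only [Finset.mem_singleton, Finset.mem_union, Finset.mem_Icc,
          Finset.mem_image] at hx hx'
        obtain ⟨z, hz, h⟩ := hx'
        omega
      convert h2 using 1
      ext x
      simp only [Finset.mem_singleton, Finset.mem_union, Finset.mem_Icc, Finset.mem_image]
      rw [Nat.succ_eq_add_one] at hM
      constructor
      · rintro ⟨w, hw, rfl⟩
        by_cases c : 2 * r + w = 3 ^ (s' + 1)
        · exact Or.inl c
        · exact Or.inr ⟨2 * r + w - 3 ^ (s' + 1), by omega, by omega⟩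
      · rintro (hx | ⟨z, hz, rfl⟩)
        · exact ⟨x - 2 * r, by omega, by omega⟩
        · exact ⟨3 ^ (s' + 1) + z - 2 * r, by omega, by omega⟩
  · obtain ⟨a, rfl⟩ : ∃ a, g = 2 * a + 2 := ⟨g / 2 - 1, by omega⟩
    refine ⟨Finset.Icc (2 * (2 * a + 2) - a) (2 * (2 * a + 2) + a) ∪ {3 * (2 * a + 2)},
      key _ ?_ ?_ ?_ ?_⟩
    · intro w hw
      rw [Finset.mem_union, Finset.mem_Icc, Finset.mem_singleton] at hw; omega
    · intro w hw
      rw [Finset.mem_union, Finset.mem_Icc, Finset.mem_singleton] at hw; omega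
    · intro u hu
      have h1 := three a (u + (2 * a + 2)) (u + (2 * a + 2)) (by omega) (by omega)
        (by intros; omega) (by intros; omega)
      have h2 : Part Z3 ({u + 2 * (2 * a + 2), u + (2 * a + 2), -(2 * u + 3 * (2 * a + 2))} ∪
          (Finset.Icc (u + (2 * a + 2) + 1) (u + (2 * a + 2) + 2 * a + 1) ∪
            Finset.Icc (u + (2 * a + 2) - 2 * a - 1) (u + (2 * a + 2) - 1) ∪
          Finset.Icc (-(u + (2 * a + 2) + (u + (2 * a + 2)) + a))
            (-(u + (2 * a + 2) + (u + (2 * a + 2)) - a)))) := by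
        refine Part.cons _ _ (z3_triple (by omega) (by omega) (by omega) (by ring)) h1 ?_
        intro x hx hx'
        simp only [Finset.mem_insert, Finset.mem_singleton, Finset.mem_union,
          Finset.mem_Icc] at hx hx'
        omega
      convert h2 using 1
      ext x
      simp only [Finset.mem_union, Finset.mem_Icc, Finset.mem_image, Finset.mem_insert,
        Finset.mem_singleton]
      constructor
      · rintro (h | ⟨w, hw, rfl⟩) <;> omega
      · rintro ((h | h | h) | (h | h) | h)
        · left; omega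
        · left; omega
        · right; exact ⟨3 * (2 * a + 2), by omega, by omega⟩
        · left; omega
        · left; omega
        · right; exact ⟨-x - 2 * u, by omega, by omega⟩
    · rw [Nat.succ_eq_add_one] at hM
      have h1 := shift (s' + 1) (symr (a - 1) (by omega) (by omega))
      have h2 : Part G3 ({(3 : ℤ) ^ (s' + 1)} ∪
          (Finset.Icc (-(a - 1)) (-1) ∪ Finset.Icc 1 (a - 1)).image
            fun z => 3 ^ (s' + 1) + z) := by
        refine Part.cons _ _ (g3_single _) h1 ?_
        intro x hx hx'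
        simp only [Finset.mem_singleton, Finset.mem_union, Finset.mem_Icc,
          Finset.mem_image] at hx hx'
        obtain ⟨z, hz, h⟩ := hx'
        omega
      have h3 : Part G3 ({(3 : ℤ) ^ (s' + 1) - a - 1, (3 : ℤ) ^ (s' + 1) - a,
          (3 : ℤ) ^ (s' + 1) + 2 * a + 1} ∪ ({(3 : ℤ) ^ (s' + 1)} ∪
          (Finset.Icc (-(a - 1)) (-1) ∪ Finset.Icc 1 (a - 1)).image
            fun z => 3 ^ (s' + 1) + z)) := by
        refine Part.cons _ _ (g3_triple (s' + 2) (by omega) (by omega) (by omega)
          (by rw [pow_succ (3 : ℤ) (s' + 1)]; ring)) h2 ?_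
        intro x hx hx'
        simp only [Finset.mem_singleton, Finset.mem_union, Finset.mem_Icc,
          Finset.mem_image, Finset.mem_insert] at hx hx'
        rcases hx' with h | ⟨z, hz, h⟩ <;> omega
      convert h3 using 1
      ext x
      simp only [Finset.mem_singleton, Finset.mem_union, Finset.mem_Icc, Finset.mem_image,
        Finset.mem_insert]
      constructor
      · rintro ⟨w, hw, rfl⟩
        by_cases c1 : 2 * r + w = 3 ^ (s' + 1)
        · exact Or.inr (Or.inl c1)
        by_cases c2 : 2 * r + w = 3 ^ (s' + 1) - a - 1 ∨ 2 * r + w = 3 ^ (s' + 1) - a ∨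
          2 * r + w = 3 ^ (s' + 1) + 2 * a + 1
        · exact Or.inl c2
        · exact Or.inr (Or.inr ⟨2 * r + w - 3 ^ (s' + 1), by omega, by omega⟩)
      · rintro (hx | hx | ⟨z, hz, rfl⟩)
        · exact ⟨x - 2 * r, by omega, by omega⟩
        · exact ⟨x - 2 * r, by omega, by omega⟩
        · exact ⟨3 ^ (s' + 1) + z - 2 * r, by omega, by omega⟩

/-- second case -/
theorem lemB (t s : ℕ) (hs : 1 ≤ s) (r g : ℤ) (W : Finset ℤ) (K : Key s r g W)
    (hQ : 2 * (3 ^ s + r + 2 * g) < (3 : ℤ) ^ t) : Key t (3 ^ s + r) g W := by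
  have k1 := K.hr
  have k2 := K.hQ
  have k3 := K.hg
  have k4 := K.h3
  have hQ0 : (1 : ℤ) ≤ 3 ^ s := one_le_pow₀ (by norm_num)
  have hQ3 : (3 : ℤ) ^ s % 3 = 0 := by
    obtain ⟨s', rfl⟩ := Nat.exists_eq_succ_of_ne_zero (by omega : s ≠ 0)
    rw [pow_succ]; omega
  refine ⟨by omega, by omega, k3, by omega, K.hW, K.hM, ?_⟩
  have hlt : s < t := (pow_lt_pow_iff_right₀ (by norm_num : (1 : ℤ) < 3)).1 (by omega)
  have memW : ∀ w : ℤ, w - 2 * r ∈ W → 2 * r + 1 ≤ w ∧ w < 3 ^ s := by
    intro w hw
    have := K.hW _ hw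
    omega
  -- the base set
  set B := (Finset.Icc 1 ((3 : ℤ) ^ s + r)).filter (fun x => 3 ^ s - x - 2 * r ∉ W) with hB
  have hBG : Part G3 B := by
    have h1 := shift s (symr r k1 k4)
    set R := (Finset.Icc 1 ((3 : ℤ) ^ s - 1)).filter
      (fun x => x ∉ Uset r W ∧ 3 ^ s - x ∉ Uset r W) with hR
    have hRG : Part G3 R := by
      refine pairs s R ?_
      intro x hx
      rw [hR, Finset.mem_filter, Finset.mem_Icc] at hx ⊢
      refine ⟨by omega, hx.2.2, ?_⟩
      rw [sub_sub_cancel]
      exact hx.2.1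
    set T := (Uset r W).filter (fun x => 1 ≤ x ∧ 3 ^ s - x ∉ Uset r W) with hT
    have h2 : Part G3 (R ∪ T) := hRG.union K.hG (by
      intro x hx hx'
      rw [hR, Finset.mem_filter] at hx
      rw [hT, Finset.mem_filter] at hx'
      exact hx.2.1 hx'.1)
    have h3 : Part G3 ({(3 : ℤ) ^ s} ∪ (R ∪ T)) := by
      refine Part.cons _ _ (g3_single s) h2 ?_
      intro x hx hx'
      rw [Finset.mem_singleton] at hx
      subst hx
      rw [Finset.mem_union, hR, hT, Finset.mem_filter, Finset.mem_filter, Finset.mem_Icc] at hx'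
      rcases hx' with h | h
      · omega
      · have := K.mem h.1; omega
    have h4 := h1.union h3 (by
      intro x hx hx'
      simp only [Finset.mem_union, Finset.mem_Icc, Finset.mem_image] at hx
      obtain ⟨z, hz, rfl⟩ := hx
      rw [Finset.mem_union, Finset.mem_union, Finset.mem_singleton, hR, hT, Finset.mem_filter,
        Finset.mem_filter, Finset.mem_Icc] at hx'
      rcases hx' with h | h | h
      · omega
      · refine h.2.2 (mem_Uset.2 (Or.inl ?_))
        omega
      · have := K.mem h.1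
        refine h.2.2 (mem_Uset.2 (Or.inl ?_))
        omega)
    convert h4 using 1
    ext x
    rw [hB, Finset.mem_filter, Finset.mem_union, Finset.mem_union, Finset.mem_union,
      Finset.mem_singleton, hR, hT, Finset.mem_filter, Finset.mem_filter, Finset.mem_Icc,
      Finset.mem_Icc, Finset.mem_image]
    simp only [Finset.mem_union, Finset.mem_Icc]
    constructor
    · rintro ⟨hx1, hx2⟩
      by_cases c1 : 3 ^ s < x
      · left; exact ⟨x - 3 ^ s, by omega, by omega⟩
      by_cases c2 : x = 3 ^ s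
      · right; left; exact c2
      by_cases c3 : 3 ^ s - x ∈ Uset r W
      · left
        rcases mem_Uset.1 c3 with h | h
        · exact ⟨x - 3 ^ s, by omega, by omega⟩
        · exact absurd h hx2
      by_cases c4 : x ∈ Uset r W
      · right; right; right; exact ⟨c4, hx1.1, c3⟩
      · right; right; left; exact ⟨by omega, c4, c3⟩
    · rintro (⟨z, hz, rfl⟩ | h | h | h)
      · refine ⟨by omega, fun h => ?_⟩
        have := memW _ h
        omega
      · subst h
        refine ⟨by omega, fun h => ?_⟩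
        have := memW _ h
        omega
      · refine ⟨by omega, fun h' => h.2.2 (mem_Uset.2 (Or.inr h'))⟩
      · have := K.mem h.1
        refine ⟨by omega, fun h' => h.2.2 (mem_Uset.2 (Or.inr h'))⟩
  have memU : ∀ x : ℤ, x ∈ Uset (3 ^ s + r) W ↔
      (1 ≤ x ∧ x ≤ 3 ^ s + r) ∨ x - 2 * 3 ^ s - 2 * r ∈ W := by
    intro x
    rw [mem_Uset]
    have : x - 2 * (3 ^ s + r) = x - 2 * 3 ^ s - 2 * r := by ring
    rw [this]
  by_cases hts : t = s + 1
  · subst hts
    have e3 : (3 : ℤ) ^ (s + 1) = 3 * 3 ^ s := by rw [pow_succ]; ring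
    convert hBG using 1
    ext x
    rw [hB, Finset.mem_filter, Finset.mem_filter, memU, memU, Finset.mem_Icc, e3]
    constructor
    · rintro ⟨h1, h2, h3⟩
      rcases h1 with h1 | h1
      · refine ⟨h1, fun h => h3 (Or.inr ?_)⟩
        have : 3 * 3 ^ s - x - 2 * 3 ^ s - 2 * r = 3 ^ s - x - 2 * r := by ring
        rw [this]; exact h
      · exfalso
        have := K.hW _ h1
        exact h3 (Or.inl (by omega))
    · rintro ⟨h1, h2⟩
      refine ⟨Or.inl h1, h1.1, ?_⟩
      rintro (h | h)
      · omega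
      · have : 3 * 3 ^ s - x - 2 * 3 ^ s - 2 * r = 3 ^ s - x - 2 * r := by ring
        rw [this] at h; exact h2 h
  · have hbig : 9 * (3 : ℤ) ^ s ≤ 3 ^ t := by
      have : (3 : ℤ) ^ (s + 2) ≤ 3 ^ t := pow_le_pow_right₀ (by norm_num) (by omega)
      rw [pow_add] at this
      omega
    have hP : Part G3 (W.biUnion fun w => {3 ^ s - (2 * r + w), 2 * 3 ^ s + (2 * r + w)}) := by
      refine Part.family _ _ (fun w hw => ?_) ?_
      · have := K.hW _ hw
        exact g3_pair (s + 1) (by omega) (by rw [pow_succ]; ring)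
      · intro i hi k hk z hx hx'
        have h1 := K.hW _ hi
        have h2 := K.hW _ hk
        simp only [Finset.mem_insert, Finset.mem_singleton] at hx hx'
        omega
    have h1 := hBG.union hP (by
      intro x hx hx'
      rw [hB, Finset.mem_filter, Finset.mem_Icc] at hx
      simp only [Finset.mem_biUnion, Finset.mem_insert, Finset.mem_singleton] at hx'
      obtain ⟨w, hw, h⟩ := hx'
      have h1 := K.hW _ hw
      rcases h with h | h
      · apply hx.2
        have : 3 ^ s - x - 2 * r = w := by omega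
        rw [this]; exact hw
      · omega)
    convert h1 using 1
    ext x
    rw [hB, Finset.mem_union, Finset.mem_filter, Finset.mem_filter, memU, memU, Finset.mem_Icc,
      Finset.mem_biUnion]
    simp only [Finset.mem_insert, Finset.mem_singleton]
    constructor
    · rintro ⟨h1, h2, h3⟩
      rcases h1 with h1 | h1
      · by_cases c : 3 ^ s - x - 2 * r ∈ W
        · right; exact ⟨_, c, by omega⟩
        · left; exact ⟨h1, c⟩
      · right
        exact ⟨_, h1, by omega⟩
    · rintro (⟨h1, h2⟩ | ⟨w, hw, h⟩)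
      · refine ⟨Or.inl h1, h1.1, ?_⟩
        rintro (h | h)
        · omega
        · have := K.hW _ h; omega
      · have h1 := K.hW _ hw
        refine ⟨?_, by omega, ?_⟩
        · rcases h with h | h
          · left; omega
          · right
            have : x - 2 * 3 ^ s - 2 * r = w := by omega
            rw [this]; exact hw
        · rintro (h' | h')
          · omega
          · have := K.hW _ h'; omega

theorem lemE (m : ℕ) (hm : m % 3 = 2) (hG : ∀ k : ℕ, k < m → Part G3 (Finset.Icc 1 (k : ℤ))) :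
    ∀ t : ℕ, 2 * m < 3 ^ t → ∃ r g W, Key t r g W ∧ r + 2 * g = m := by
  induction m using Nat.strong_induction_on with
  | _ m ih =>
  intro t ht
  set s := Nat.log 3 m with hs
  have h1 : 3 ^ s ≤ m := Nat.pow_log_le_self 3 (by omega)
  have h2 : m < 3 ^ (s + 1) := Nat.lt_pow_succ_log_self (by norm_num) m
  have e3 : 3 ^ (s + 1) = 3 * 3 ^ s := by rw [pow_succ]; ring
  have hpos : 1 ≤ 3 ^ s := Nat.one_le_pow _ _ (by norm_num)
  have hodd : 3 ^ s % 2 = 1 := Nat.odd_iff.1 (Odd.pow (by decide))
  by_cases c : 3 ^ (s + 1) + 1 ≤ 2 * m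
  · have h4 : ((3 ^ (s + 1) - m - 1 : ℕ) : ℤ) = 3 ^ (s + 1) - m - 1 := by
      rw [Nat.cast_sub (by omega), Nat.cast_sub (by omega)]; push_cast; ring
    have e4 : ((3 : ℤ)) ^ (s + 1) = ((3 ^ (s + 1) : ℕ) : ℤ) := by push_cast; ring
    have e5 : ((3 : ℤ)) ^ t = ((3 ^ t : ℕ) : ℤ) := by push_cast; ring
    obtain ⟨W, hW⟩ := lemA t (s + 1) (3 ^ (s + 1) - m - 1) ((2 * m + 1 - 3 ^ (s + 1)) / 2)
      (by rw [e4]; omega) (by rw [e4]; omega) (by rw [e4]; omega) (by rw [e4]; omega)
      (by rw [← h4]; exact hG _ (by omega)) (by rw [e4, e5]; omega)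
    exact ⟨_, _, W, hW, by rw [e4]; omega⟩
  · have hs1 : 1 ≤ s := by
      rcases Nat.eq_zero_or_pos s with h | h
      · rw [h] at h1 h2 c
        norm_num at h1 h2 c
        omega
      · exact h
    have hdiv : 3 ^ s % 3 = 0 := by
      obtain ⟨s', hs'⟩ := Nat.exists_eq_succ_of_ne_zero (by omega : s ≠ 0)
      rw [hs', pow_succ]; omega
    obtain ⟨r, g, W, K, hK⟩ := ih (m - 3 ^ s) (by omega) (by omega)
      (fun k hk => hG k (by omega)) s (by omega)
    have e4 : ((3 : ℤ)) ^ s = ((3 ^ s : ℕ) : ℤ) := by push_cast; ring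
    have e5 : ((3 : ℤ)) ^ t = ((3 ^ t : ℕ) : ℤ) := by push_cast; ring
    rw [Nat.cast_sub h1] at hK
    refine ⟨3 ^ s + r, g, W, lemB t s hs1 r g W K ?_, ?_⟩
    · rw [e4, e5]; omega
    · rw [e4]; omega

theorem main (n : ℕ) : Part G3 (Finset.Icc 1 (n : ℤ)) := by
  induction n using Nat.strong_induction_on with
  | _ n ih =>
  rcases Nat.eq_zero_or_pos n with rfl | hn
  · have : Finset.Icc (1 : ℤ) ((0 : ℕ) : ℤ) = ∅ := by
      ext x; simp only [Finset.mem_Icc, Finset.notMem_empty, iff_false]; push_cast; omega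
    rw [this]; exact Part.empty
  set t := Nat.log 3 n with hs
  have h1 : 3 ^ t ≤ n := Nat.pow_log_le_self 3 (by omega)
  have h2 : n < 3 ^ (t + 1) := Nat.lt_pow_succ_log_self (by norm_num) n
  have e3 : 3 ^ (t + 1) = 3 * 3 ^ t := by rw [pow_succ]; ring
  have hodd : 3 ^ t % 2 = 1 := Nat.odd_iff.1 (Odd.pow (by decide))
  have e4 : ((3 : ℤ)) ^ t = ((3 ^ t : ℕ) : ℤ) := by push_cast; ring
  have e5 : ((3 : ℤ)) ^ (t + 1) = ((3 ^ (t + 1) : ℕ) : ℤ) := by push_cast; ring
  by_cases c : 3 ^ (t + 1) + 1 ≤ 2 * n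
  · have hR : Part G3 (Finset.Icc (3 ^ (t + 1) - (n : ℤ)) n) := by
      refine pairs (t + 1) _ ?_
      intro x hx
      rw [Finset.mem_Icc] at hx ⊢
      omega
    have h3 := (ih (3 ^ (t + 1) - n - 1) (by omega)).union hR (by
      intro x hx hx'
      rw [Finset.mem_Icc] at hx hx'
      rw [e5] at hx'
      omega)
    convert h3 using 1
    ext x
    rw [Finset.mem_union, Finset.mem_Icc, Finset.mem_Icc, Finset.mem_Icc, e5]
    omega
  · obtain ⟨m, hm⟩ : ∃ m : ℕ, n = 3 ^ t + m := ⟨n - 3 ^ t, by omega⟩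
    have hnm : (n : ℤ) = 3 ^ t + m := by rw [e4, hm]; push_cast; ring
    have h2m : 2 * (m : ℤ) < 3 ^ t := by rw [e4]; omega
    have hpos : 1 ≤ 3 ^ t := Nat.one_le_pow _ _ (by norm_num)
    rw [hnm]
    rcases (by omega : m % 3 = 0 ∨ m % 3 = 1 ∨ m % 3 = 2) with hm3 | hm3 | hm3
    · refine step t m (by omega) (Finset.Icc 1 (m : ℤ)) ?_ ?_ ?_
      · intro u hu; rw [Finset.mem_Icc] at hu; omega
      · convert symr (m : ℤ) (by omega) (by omega) using 1
        ext x
        simp only [Finset.mem_union, Finset.mem_Icc, Finset.mem_image]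
        constructor
        · rintro (h | ⟨u, hu, rfl⟩) <;> omega
        · rintro (h | h)
          · right; exact ⟨-x, by omega, by omega⟩
          · left; omega
      · convert ih m (by omega) using 1
        ext x
        simp only [Finset.mem_filter, Finset.mem_Icc]
        omega
    · refine step t m (by omega) (Finset.Icc 0 (m : ℤ)) ?_ ?_ ?_
      · intro u hu; rw [Finset.mem_Icc] at hu; omega
      · have h3 := three ((m : ℤ) / 3) (m / 3) (-(m / 3)) (by omega) (by omega)
          (by intros; omega) (by intros; omega)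
        convert h3 using 1
        ext x
        simp only [Finset.mem_union, Finset.mem_Icc, Finset.mem_image]
        constructor
        · rintro (h | ⟨u, hu, rfl⟩) <;> omega
        · intro h
          by_cases c : 1 ≤ x
          · left; omega
          · right; exact ⟨-x, by omega, by omega⟩
      · convert ih m (by omega) using 1
        ext x
        simp only [Finset.mem_filter, Finset.mem_Icc]
        omega
    · obtain ⟨r, g, W, K, hK⟩ := lemE m hm3 (fun k hk => ih k (by omega)) t (by
        rw [e4] at h2m; omega)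
      rw [← hK]
      exact K.good

theorem part_finpartition {p : Finset ℕ → Prop} (hp : ∀ A, p A → A.Nonempty) {S : Finset ℕ}
    (hS : Part p S) : ∃ P : Finpartition S, ∀ A ∈ P.parts, p A := by
  induction hS with
  | empty => exact ⟨Finpartition.empty _, by simp⟩
  | cons A S hA _ hAS ih =>
    obtain ⟨P, hP⟩ := ih
    refine ⟨P.extend (b := A) (c := A ∪ S) ?_ ?_ ?_, ?_⟩
    · exact (hp A hA).ne_empty
    · rw [Finset.disjoint_left]
      intro x hx hx'
      exact hAS x hx' hx
    · rw [Finset.union_comm]; rfl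
    · intro B hB
      rw [Finpartition.extend_parts] at hB
      rcases Finset.mem_insert.1 hB with rfl | hB
      · exact hA
      · exact hP B hB

/-- **Every `[n]` has a 3-good partition**: for every `n ≥ 1` the set `{1, …, n}` can be
partitioned into nonempty parts of size at most `3`, each with sum a power of `3`. -/
theorem result : ∀ n : ℕ, 1 ≤ n → ∃ P : Finpartition (Finset.Icc 1 n), ∀ A ∈ P.parts,
    1 ≤ A.card ∧ A.card ≤ 3 ∧ ∃ j : ℕ, ∑ a ∈ A, a = 3 ^ j := by
  intro n _
  have h1 := (main n).map (q := fun A : Finset ℕ => 1 ≤ A.card ∧ A.card ≤ 3 ∧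
    ∃ j : ℕ, ∑ a ∈ A, a = 3 ^ j) Int.toNat (by
      intro a ha b hb hab
      simp only [Finset.coe_Icc, Set.mem_Icc] at ha hb
      omega) (by
      rintro A hA ⟨h1, h2, j, hj⟩
      refine ⟨?_, Finset.card_image_le.trans h2, j, ?_⟩
      · rw [Nat.succ_le_iff, Finset.card_pos, Finset.image_nonempty]
        exact h1
      · have hpos : ∀ a ∈ A, 1 ≤ a := fun a ha => (Finset.mem_Icc.1 (hA ha)).1
        rw [Finset.sum_image (by
          intro a ha b hb hab
          have := hpos a ha
          have := hpos b hb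
          omega)]
        have h3 : ((∑ a ∈ A, a.toNat : ℕ) : ℤ) = 3 ^ j := by
          rw [← hj]
          push_cast
          refine Finset.sum_congr rfl fun a ha => ?_
          have := hpos a ha
          omega
        exact_mod_cast h3)
  have h2 : (Finset.Icc 1 (n : ℤ)).image Int.toNat = Finset.Icc 1 n := by
    ext x
    simp only [Finset.mem_image, Finset.mem_Icc]
    constructor
    · rintro ⟨a, ha, rfl⟩; omega
    · intro h; exact ⟨x, by omega, by omega⟩
  rw [h2] at h1
  refine part_finpartition (fun A hA => ?_) h1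
  exact Finset.card_pos.1 hA.1

end Pool.Agent.Results.MP_b44c8b_co.ThreeGood
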